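import Mathlib

/-!
# MP_ca1492_al, module Cat/Transfer: Ext groups through an injective object.

`C` abelian, `W : C` injective, `A = End W`, `E X = Hom(X, W)` as an `A`-module.  If `Y` has a
coresolution by direct summands of finite powers of `W`, then `Ext_C^i(X, Y)` vanishes iff
`Ext_A^i(E Y, E X)` vanishes, for every `X` and `i`.
-/

namespace CA1492.Cat

open CategoryTheory CategoryTheory.Abelian CategoryTheory.Limits Opposite

universe w w' v u

section basic

variable {C : Type u} [Category.{v} C] [Abelian C] (W : C)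

/-- `Hom(X, W)` as a module over `End W` -/
abbrev EE (X : C) : ModuleCat.{v} (End W) := (preadditiveYonedaObj W).obj (op X)

/-- functoriality of `EE` -/
abbrev EEm {X Y : C} (f : X ⟶ Y) : EE W Y ⟶ EE W X := (preadditiveYonedaObj W).map f.op

theorem EEm_comp {X Y Z : C} (f : X ⟶ Y) (g : Y ⟶ Z) : EEm W (f ≫ g) = EEm W g ≫ EEm W f := by
  unfold EEm
  rw [op_comp, Functor.map_comp]

theorem EEm_apply {X Y : C} (f : X ⟶ Y) (g : Y ⟶ W) :
    ((EEm W f).hom : (Y ⟶ W) →ₗ[End W] (X ⟶ W)) g = f ≫ g := rfl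

/-- `I` is a direct summand of a finite power of `W` -/
def FinW (I : C) : Prop :=
  ∃ (n : ℕ) (ι : Fin n → (W ⟶ I)) (π : Fin n → (I ⟶ W)), ∑ k, π k ≫ ι k = 𝟙 I

variable {W}

theorem FinW.inj [Injective W] {I : C} (h : FinW W I) : Injective I := by
  obtain ⟨n, ι, π, hs⟩ := h
  refine ⟨fun {X Y} g f hf => ?_⟩
  refine ⟨∑ k, (Injective.factorThru (g ≫ π k) f) ≫ ι k, ?_⟩
  rw [Preadditive.comp_sum]
  have : ∀ k, f ≫ (Injective.factorThru (g ≫ π k) f) ≫ ι k = g ≫ (π k ≫ ι k) := by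
    intro k
    rw [← Category.assoc, Injective.comp_factorThru, Category.assoc]
  rw [Finset.sum_congr rfl fun k _ => this k, ← Preadditive.comp_sum, hs, Category.comp_id]

theorem FinW.bij {I : C} (h : FinW W I) (X : C) :
    Function.Bijective (fun f : X ⟶ I => EEm W f) := by
  obtain ⟨n, ι, π, hs⟩ := h
  constructor
  · intro f g hfg
    have h1 : ∀ k, f ≫ π k = g ≫ π k := by
      intro k
      have := congrArg (fun φ : EE W I ⟶ EE W X => φ.hom (π k)) hfg
      exact this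
    rw [← Category.comp_id f, ← Category.comp_id g, ← hs, Preadditive.comp_sum,
      Preadditive.comp_sum]
    refine Finset.sum_congr rfl fun k _ => ?_
    rw [← Category.assoc, ← Category.assoc, h1]
  · intro φ
    let ψ : (I ⟶ W) →ₗ[End W] (X ⟶ W) := φ.hom
    refine ⟨∑ k, (ψ (π k)) ≫ ι k, ?_⟩
    refine ModuleCat.hom_ext (LinearMap.ext fun g => ?_)
    change (∑ k, (ψ (π k)) ≫ ι k) ≫ g = ψ g
    rw [Preadditive.sum_comp]
    have h1 : ∀ k, ((ψ (π k)) ≫ ι k) ≫ g = ψ ((show End W from ι k ≫ g) • π k) := by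
      intro k
      rw [map_smul, Category.assoc]
      rfl
    rw [Finset.sum_congr rfl fun k _ => h1 k, ← map_sum]
    congr 1
    have h2 : ∀ k, ((show End W from ι k ≫ g) • π k : I ⟶ W) = (π k ≫ ι k) ≫ g := by
      intro k
      rw [Category.assoc]
      rfl
    rw [Finset.sum_congr rfl fun k _ => h2 k, ← Preadditive.sum_comp, hs, Category.id_comp]

theorem self_proj : Projective (EE W W) := by
  refine ⟨fun {M N} f e he => ?_⟩
  let f' : (W ⟶ W) →ₗ[End W] N := f.hom
  obtain ⟨m, hm⟩ := (ModuleCat.epi_iff_surjective e).1 he (f' (𝟙 W))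
  refine ⟨ModuleCat.ofHom (LinearMap.toSpanSingleton (End W) M m), ?_⟩
  refine ModuleCat.hom_ext (LinearMap.ext fun g => ?_)
  change e.hom ((show End W from g) • m) = f' g
  rw [map_smul]
  have h1 : e.hom m = f' (𝟙 W) := hm
  rw [h1]
  have h2 := map_smul f' (show End W from g) (𝟙 W)
  refine h2.symm.trans ?_
  congr 1
  exact Category.id_comp g

theorem FinW.proj {I : C} (h : FinW W I) : Projective (EE W I) := by
  obtain ⟨n, ι, π, hs⟩ := h
  refine ⟨fun {M N} f e he => ?_⟩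
  have := self_proj (W := W)
  refine ⟨∑ k, EEm W (ι k) ≫ Projective.factorThru (EEm W (π k) ≫ f) e, ?_⟩
  rw [Preadditive.sum_comp]
  have h1 : ∀ k, (EEm W (ι k) ≫ Projective.factorThru (EEm W (π k) ≫ f) e) ≫ e =
      EEm W (π k ≫ ι k) ≫ f := by
    intro k
    rw [Category.assoc, Projective.factorThru_comp, ← Category.assoc, ← EEm_comp]
  rw [Finset.sum_congr rfl fun k _ => h1 k, ← Preadditive.sum_comp]
  have h2 : ∑ k, EEm W (π k ≫ ι k) = 𝟙 (EE W I) := by
    refine ModuleCat.hom_ext (LinearMap.ext fun g => ?_)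
    have h3 : ((∑ k, EEm W (π k ≫ ι k)).hom : (I ⟶ W) →ₗ[End W] (I ⟶ W)) g =
        ∑ k, (π k ≫ ι k) ≫ g := by
      rw [ModuleCat.hom_sum, LinearMap.sum_apply]
      rfl
    refine h3.trans ?_
    rw [← Preadditive.sum_comp, hs, Category.id_comp]
    rfl
  rw [h2, Category.id_comp]

/-- the short exact sequence of modules -/
def ES {S : ShortComplex C} (W : C) : ShortComplex (ModuleCat.{v} (End W)) :=
  ShortComplex.mk (EEm W S.g) (EEm W S.f) (by
    rw [← EEm_comp, S.zero]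
    refine ModuleCat.hom_ext (LinearMap.ext fun g => ?_)
    change (0 : S.X₁ ⟶ S.X₃) ≫ g = 0
    rw [zero_comp])

theorem ES_exact [Injective W] {S : ShortComplex C} (hS : S.ShortExact) :
    (ES (S := S) W).ShortExact := by
  have := hS.mono_f
  have := hS.epi_g
  refine ModuleCat.shortComplex_shortExact _ ?_ ?_ ?_
  · intro f
    constructor
    · intro hf
      let f' : S.X₂ ⟶ W := f
      have hf' : S.f ≫ f' = 0 := hf
      exact ⟨(hS.exact.desc f' hf' : S.X₃ ⟶ W), hS.exact.g_desc f' hf'⟩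
    · rintro ⟨g, rfl⟩
      let g' : S.X₃ ⟶ W := g
      change S.f ≫ S.g ≫ g' = 0
      rw [← Category.assoc, S.zero, zero_comp]
  · intro f g hfg
    have : S.g ≫ (f : S.X₃ ⟶ W) = S.g ≫ (g : S.X₃ ⟶ W) := hfg
    exact (cancel_epi S.g).1 this
  · intro f
    exact ⟨(Injective.factorThru (f : S.X₁ ⟶ W) S.f : S.X₂ ⟶ W), Injective.comp_factorThru _ _⟩

end basic

section ext

variable {C : Type u} [Category.{v} C] [Abelian C] [HasExt.{w} C] {W : C} [Injective W]
  [HasExt.{w'} (ModuleCat.{v} (End W))]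

/-- a class of objects with coresolutions by summands of finite powers of `W` -/
def Cores (W : C) (P : C → Prop) : Prop :=
  ∀ Y, P Y → ∃ (S : ShortComplex C) (_ : S.ShortExact) (_ : S.X₁ ≅ Y), FinW W S.X₂ ∧ P S.X₃

theorem hom_inj {P : C → Prop} (hP : Cores W P) {Y : C} (hY : P Y) (X : C) (f g : X ⟶ Y)
    (h : EEm W f = EEm W g) : f = g := by
  obtain ⟨S, hS, e, hI, -⟩ := hP Y hY
  have := hS.mono_f
  have h1 : EEm W (f ≫ e.inv ≫ S.f) = EEm W (g ≫ e.inv ≫ S.f) := by
    rw [EEm_comp W f, EEm_comp W g, h]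
  have h2 := (hI.bij X).1 h1
  have h3 : (f ≫ e.inv) ≫ S.f = (g ≫ e.inv) ≫ S.f := by
    rw [Category.assoc, Category.assoc]
    exact h2
  have h4 := (cancel_mono S.f).1 h3
  exact (cancel_mono e.inv).1 h4

theorem hom_surj {P : C → Prop} (hP : Cores W P) {Y : C} (hY : P Y) (X : C)
    (φ : EE W Y ⟶ EE W X) : ∃ f : X ⟶ Y, EEm W f = φ := by
  obtain ⟨S, hS, e, hI, hZ⟩ := hP Y hY
  have := hS.mono_f
  have := hS.epi_g
  obtain ⟨h, hh⟩ := (hI.bij X).2 (EEm W (e.inv ≫ S.f) ≫ φ)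
  have hh' : EEm W h = EEm W (e.inv ≫ S.f) ≫ φ := hh
  have h0 : h ≫ S.g = 0 := by
    refine hom_inj hP hZ X _ _ ?_
    rw [EEm_comp, hh', ← Category.assoc, ← EEm_comp]
    have : (e.inv ≫ S.f) ≫ S.g = 0 := by rw [Category.assoc, S.zero, comp_zero]
    rw [this]
    refine ModuleCat.hom_ext (LinearMap.ext fun g => ?_)
    change φ.hom ((0 : Y ⟶ S.X₃) ≫ g) = (0 : X ⟶ S.X₃) ≫ g
    rw [zero_comp, zero_comp]
    exact map_zero φ.hom
  refine ⟨hS.exact.lift h h0 ≫ e.hom, ?_⟩
  have h1 : EEm W (e.inv ≫ S.f) ≫ EEm W (hS.exact.lift h h0 ≫ e.hom) =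
      EEm W (e.inv ≫ S.f) ≫ φ := by
    rw [← EEm_comp, ← hh']
    congr 1
    rw [Category.assoc, e.hom_inv_id_assoc, hS.exact.lift_f]
  have : Epi (EEm W (e.inv ≫ S.f)) := by
    rw [ModuleCat.epi_iff_surjective]
    intro f
    exact ⟨(Injective.factorThru (f : Y ⟶ W) (e.inv ≫ S.f) : S.X₂ ⟶ W),
      Injective.comp_factorThru _ _⟩
  exact (cancel_epi _).1 h1

/-- degree one on the side of `C` -/
theorem ext_one_left {S : ShortComplex C} (hS : S.ShortExact) (hI : Injective S.X₂) (X : C) :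
    Subsingleton (Ext.{w} X S.X₁ 1) ↔ ∀ g : X ⟶ S.X₃, ∃ f : X ⟶ S.X₂, f ≫ S.g = g := by
  constructor
  · intro h g
    obtain ⟨x, hx⟩ := Ext.covariant_sequence_exact₃ X hS (Ext.mk₀ g) (n₁ := 1) rfl
      (Subsingleton.elim _ _)
    obtain ⟨f, rfl⟩ := Ext.addEquiv₀.symm.surjective x
    refine ⟨f, ?_⟩
    rw [Ext.addEquiv₀_symm_apply, Ext.mk₀_comp_mk₀] at hx
    exact (Ext.mk₀_bijective _ _).1 hx
  · intro h
    refine ⟨fun a b => ?_⟩
    have key : ∀ a : Ext.{w} X S.X₁ 1, a = 0 := by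
      intro a
      have := Ext.subsingleton_of_injective X S.X₂ 0
      obtain ⟨x, rfl⟩ := Ext.covariant_sequence_exact₁ X hS a (Subsingleton.elim _ _) (n₀ := 0) rfl
      obtain ⟨g, rfl⟩ := Ext.addEquiv₀.symm.surjective x
      obtain ⟨f, rfl⟩ := h g
      rw [Ext.addEquiv₀_symm_apply, ← Ext.mk₀_comp_mk₀, Ext.comp_assoc_of_second_deg_zero,
        hS.comp_extClass, Ext.comp_zero]
    rw [key a, key b]

/-- degree one on the side of modules (any abelian category) -/
theorem ext_one_right {D : Type*} [Category* D] [Abelian D] [HasExt.{w} D]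
    {S : ShortComplex D} (hS : S.ShortExact) (hI : Projective S.X₂) (N : D) :
    Subsingleton (Ext.{w} S.X₃ N 1) ↔ ∀ g : S.X₁ ⟶ N, ∃ f : S.X₂ ⟶ N, S.f ≫ f = g := by
  constructor
  · intro h g
    obtain ⟨x, hx⟩ := Ext.contravariant_sequence_exact₁ hS N (Ext.mk₀ g) (n₁ := 1) rfl
      (Subsingleton.elim _ _)
    obtain ⟨f, rfl⟩ := Ext.addEquiv₀.symm.surjective x
    refine ⟨f, ?_⟩
    rw [Ext.addEquiv₀_symm_apply, Ext.mk₀_comp_mk₀] at hx
    exact (Ext.mk₀_bijective _ _).1 hx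
  · intro h
    refine ⟨fun a b => ?_⟩
    have key : ∀ a : Ext.{w} S.X₃ N 1, a = 0 := by
      intro a
      have := Ext.subsingleton_of_projective S.X₂ N 0
      obtain ⟨x, rfl⟩ := Ext.contravariant_sequence_exact₃ hS N a (Subsingleton.elim _ _)
        (n₀ := 0) rfl
      obtain ⟨g, rfl⟩ := Ext.addEquiv₀.symm.surjective x
      obtain ⟨f, rfl⟩ := h g
      rw [Ext.addEquiv₀_symm_apply, ← Ext.mk₀_comp_mk₀, ← Ext.comp_assoc_of_second_deg_zero,
        hS.extClass_comp, Ext.zero_comp]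
    rw [key a, key b]

theorem ext_succ_left {S : ShortComplex C} (hS : S.ShortExact) (hI : Injective S.X₂) (X : C)
    (n : ℕ) : Subsingleton (Ext.{w} X S.X₁ (n + 2)) ↔ Subsingleton (Ext.{w} X S.X₃ (n + 1)) := by
  have h1 := Ext.subsingleton_of_injective X S.X₂ n
  have h2 := Ext.subsingleton_of_injective X S.X₂ (n + 1)
  constructor
  · intro h
    refine ⟨fun a b => ?_⟩
    have key : ∀ a : Ext.{w} X S.X₃ (n + 1), a = 0 := by
      intro a
      obtain ⟨x, rfl⟩ := Ext.covariant_sequence_exact₃ X hS a (n₁ := n + 2) rfl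
        (Subsingleton.elim _ _)
      rw [Subsingleton.elim x 0, Ext.zero_comp]
    rw [key a, key b]
  · intro h
    refine ⟨fun a b => ?_⟩
    have key : ∀ a : Ext.{w} X S.X₁ (n + 2), a = 0 := by
      intro a
      obtain ⟨x, rfl⟩ := Ext.covariant_sequence_exact₁ X hS a (Subsingleton.elim _ _)
        (n₀ := n + 1) rfl
      rw [Subsingleton.elim x 0, Ext.zero_comp]
    rw [key a, key b]

theorem ext_succ_right {D : Type*} [Category* D] [Abelian D] [HasExt.{w} D]
    {S : ShortComplex D} (hS : S.ShortExact) (hI : Projective S.X₂) (N : D) (n : ℕ) :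
    Subsingleton (Ext.{w} S.X₃ N (n + 2)) ↔ Subsingleton (Ext.{w} S.X₁ N (n + 1)) := by
  have h1 := Ext.subsingleton_of_projective S.X₂ N n
  have h2 := Ext.subsingleton_of_projective S.X₂ N (n + 1)
  constructor
  · intro h
    refine ⟨fun a b => ?_⟩
    have key : ∀ a : Ext.{w} S.X₁ N (n + 1), a = 0 := by
      intro a
      obtain ⟨x, rfl⟩ := Ext.contravariant_sequence_exact₁ hS N a (n₁ := n + 2) (by omega)
        (Subsingleton.elim _ _)
      rw [Subsingleton.elim x 0, Ext.comp_zero]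
    rw [key a, key b]
  · intro h
    refine ⟨fun a b => ?_⟩
    have key : ∀ a : Ext.{w} S.X₃ N (n + 2), a = 0 := by
      intro a
      obtain ⟨x, rfl⟩ := Ext.contravariant_sequence_exact₃ hS N a (Subsingleton.elim _ _)
        (n₀ := n + 1) (by omega)
      rw [Subsingleton.elim x 0, Ext.comp_zero]
    rw [key a, key b]

/-- vanishing of Ext is invariant under isomorphisms -/
theorem ext_iso {D : Type*} [Category* D] [Abelian D] [HasExt.{w} D] {X X' Y Y' : D}
    (e : X ≅ X') (e' : Y ≅ Y') (n : ℕ) (h : Subsingleton (Ext.{w} X Y n)) :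
    Subsingleton (Ext.{w} X' Y' n) := by
  refine ⟨fun a b => ?_⟩
  have key : ∀ a : Ext.{w} X' Y' n, a = 0 := by
    intro a
    have h1 : (Ext.mk₀ e.hom).comp (a.comp (Ext.mk₀ e'.inv) (add_zero n)) (zero_add n) = 0 :=
      Subsingleton.elim _ _
    have h2 : a = (Ext.mk₀ e.inv).comp (((Ext.mk₀ e.hom).comp (a.comp (Ext.mk₀ e'.inv)
        (add_zero n)) (zero_add n)).comp (Ext.mk₀ e'.hom) (add_zero n)) (zero_add n) := by
      simp
    rw [h2, h1]
    simp
  rw [key a, key b]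

/-- **Transfer theorem.** -/
theorem transfer {P : C → Prop} (hP : Cores W P) (i : ℕ) : ∀ (Y : C) (_ : P Y) (X : C),
    (Subsingleton (Ext.{w} X Y i) ↔ Subsingleton (Ext.{w'} (EE W Y) (EE W X) i)) := by
  induction i with
  | zero =>
    intro Y hY X
    have e1 : Subsingleton (Ext.{w} X Y 0) ↔ Subsingleton (X ⟶ Y) :=
      (Ext.homEquiv₀ (X := X) (Y := Y)).subsingleton_congr
    have e2 : Subsingleton (Ext.{w'} (EE W Y) (EE W X) 0) ↔ Subsingleton (EE W Y ⟶ EE W X) :=
      (Ext.homEquiv₀ (X := EE W Y) (Y := EE W X)).subsingleton_congr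
    rw [e1, e2]
    constructor
    · intro h
      refine ⟨fun a b => ?_⟩
      obtain ⟨f, rfl⟩ := hom_surj hP hY X a
      obtain ⟨g, rfl⟩ := hom_surj hP hY X b
      rw [Subsingleton.elim f g]
    · intro h
      exact ⟨fun a b => hom_inj hP hY X a b (Subsingleton.elim _ _)⟩
  | succ i ih =>
    intro Y hY X
    obtain ⟨S, hS, e, hI, hZ⟩ := hP Y hY
    have eY : Subsingleton (Ext.{w} X Y (i + 1)) ↔ Subsingleton (Ext.{w} X S.X₁ (i + 1)) :=
      ⟨ext_iso (Iso.refl X) e.symm _, ext_iso (Iso.refl X) e _⟩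
    have eE : EE W Y ≅ EE W S.X₁ := (preadditiveYonedaObj W).mapIso e.op
    have eY' : Subsingleton (Ext.{w'} (EE W Y) (EE W X) (i + 1)) ↔
        Subsingleton (Ext.{w'} (EE W S.X₁) (EE W X) (i + 1)) :=
      ⟨ext_iso eE (Iso.refl _) _, ext_iso eE.symm (Iso.refl _) _⟩
    rw [eY, eY']
    have hS' := ES_exact (W := W) hS
    have hpr : Projective (ES (S := S) W).X₂ := hI.proj
    cases i with
    | zero =>
      rw [ext_one_left hS hI.inj X]
      have h2 := ext_one_right.{w'} hS' hpr (EE W X)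
      refine Iff.trans ?_ h2.symm
      constructor
      · intro h ψ
        obtain ⟨g, rfl⟩ := hom_surj hP hZ X ψ
        obtain ⟨f, rfl⟩ := h g
        exact ⟨EEm W f, (EEm_comp W f S.g).symm⟩
      · intro h g
        obtain ⟨φ, hφ⟩ := h (EEm W g)
        obtain ⟨f, rfl⟩ := (hI.bij X).2 φ
        refine ⟨f, hom_inj hP hZ X _ _ ?_⟩
        rw [EEm_comp]
        exact hφ
    | succ j =>
      rw [ext_succ_left hS hI.inj X]
      have h2 := ext_succ_right.{w'} hS' hpr (EE W X) j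
      exact (ih S.X₃ hZ X).trans h2.symm

end ext

end CA1492.Cat
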