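import Mathlib
import Pool.Agent.Lib.MP_ca1492_al.Cat.Transfer

/-!
# MP_ca1492_al, module Cat/Noeth: existence of the coresolutions.

If `End W` is noetherian and every nonzero subquotient `K` of a finite power of `W` has
`Hom(K, W) ≠ 0`, then the subquotients of finite powers of `W` have coresolutions by summands of
finite powers of `W`; hence the transfer theorem holds for them.
-/

namespace CA1492.Cat

open CategoryTheory CategoryTheory.Abelian CategoryTheory.Limits Opposite

universe w w' v u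

attribute [local instance] CategoryTheory.Abelian.hasFiniteBiproducts

variable {C : Type u} [Category.{v} C] [Abelian C]

/-- subquotients of direct summands of finite powers of `W` -/
def SQ (W Y : C) : Prop :=
  ∃ (I K : C) (m : K ⟶ I) (e : K ⟶ Y), FinW W I ∧ Mono m ∧ Epi e

variable {W : C}

theorem sq_of_finW {I : C} (h : FinW W I) : SQ W I :=
  ⟨I, I, 𝟙 I, 𝟙 I, h, inferInstance, inferInstance⟩

theorem sq_quot {Y Y' : C} (p : Y ⟶ Y') [Epi p] (h : SQ W Y) : SQ W Y' := by
  obtain ⟨I, K, m, e, hI, hm, he⟩ := h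
  exact ⟨I, K, m, e ≫ p, hI, hm, epi_comp e p⟩

theorem sq_sub {Y Y' : C} (i : Y' ⟶ Y) [Mono i] (h : SQ W Y) : SQ W Y' := by
  obtain ⟨I, K, m, e, hI, hm, he⟩ := h
  refine ⟨I, pullback e i, pullback.fst e i ≫ m, pullback.snd e i, hI, mono_comp _ _, ?_⟩
  infer_instance

theorem sq_iso {Y Y' : C} (e : Y ≅ Y') (h : SQ W Y) : SQ W Y' := sq_quot e.hom h

theorem finW_biproduct (W : C) (n : ℕ) : FinW W (⨁ fun _ : Fin n => W) :=
  ⟨n, fun k => biproduct.ι (fun _ : Fin n => W) k, fun k => biproduct.π (fun _ : Fin n => W) k,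
    biproduct.total⟩

theorem embed [Injective W] (Y : C) (hfg : Module.Finite (End W) (Y ⟶ W))
    (hK : ∀ (K : C) (i : K ⟶ Y), Mono i → (∀ f : K ⟶ W, f = 0) → IsZero K) :
    ∃ (I : C) (φ : Y ⟶ I), FinW W I ∧ Mono φ := by
  obtain ⟨n, s, hs⟩ := Module.Finite.exists_fin (R := End W) (M := Y ⟶ W)
  refine ⟨⨁ fun _ : Fin n => W, biproduct.lift s, finW_biproduct W n, ?_⟩
  have h0 : ∀ ψ : Y ⟶ W, kernel.ι (biproduct.lift s) ≫ ψ = 0 := by
    intro ψ
    have hψ : ψ ∈ Submodule.span (End W) (Set.range s) := by rw [hs]; trivial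
    induction hψ using Submodule.span_induction with
    | mem x hx =>
      obtain ⟨k, rfl⟩ := hx
      have h1 : s k = biproduct.lift s ≫ biproduct.π (fun _ : Fin n => W) k := by
        rw [biproduct.lift_π]
      rw [h1, ← Category.assoc, kernel.condition, zero_comp]
    | zero => exact comp_zero
    | add x y _ _ hx hy => rw [Preadditive.comp_add, hx, hy, add_zero]
    | smul a x _ hx =>
      change kernel.ι (biproduct.lift s) ≫ (x ≫ a) = 0
      rw [← Category.assoc, hx, zero_comp]
  have h1 : IsZero (kernel (biproduct.lift s)) := by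
    refine hK _ (kernel.ι (biproduct.lift s)) inferInstance fun f => ?_
    rw [← Injective.comp_factorThru f (kernel.ι (biproduct.lift s))]
    exact h0 _
  exact Preadditive.mono_of_isZero_kernel _ h1

theorem finite_finW {I : C} (h : FinW W I) : Module.Finite (End W) (I ⟶ W) := by
  obtain ⟨n, ι, π, hs⟩ := h
  refine ⟨⟨(Set.finite_range π).toFinset, ?_⟩⟩
  rw [eq_top_iff]
  intro g _
  have h1 : g = ∑ k, (show End W from ι k ≫ g) • π k := by
    have h2 : ∀ k, ((show End W from ι k ≫ g) • π k : I ⟶ W) = (π k ≫ ι k) ≫ g := by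
      intro k
      rw [Category.assoc]
      rfl
    rw [Finset.sum_congr rfl fun k _ => h2 k, ← Preadditive.sum_comp, hs, Category.id_comp]
  rw [h1]
  refine Submodule.sum_mem _ fun k _ => Submodule.smul_mem _ _ (Submodule.subset_span ?_)
  simp

theorem finite_SQ [Injective W] [IsNoetherianRing (End W)] {Y : C} (h : SQ W Y) :
    Module.Finite (End W) (Y ⟶ W) := by
  obtain ⟨I, K, m, e, hI, hm, he⟩ := h
  have h1 : Module.Finite (End W) (I ⟶ W) := finite_finW hI
  have h2 : IsNoetherian (End W) (I ⟶ W) := inferInstance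
  let Lm : (I ⟶ W) →ₗ[End W] (K ⟶ W) := (EEm W m).hom
  let Le : (Y ⟶ W) →ₗ[End W] (K ⟶ W) := (EEm W e).hom
  have hsurj : Function.Surjective Lm := by
    intro f
    exact ⟨(Injective.factorThru (f : K ⟶ W) m : I ⟶ W), Injective.comp_factorThru _ _⟩
  have h3 : IsNoetherian (End W) (K ⟶ W) :=
    isNoetherian_of_surjective Lm (LinearMap.range_eq_top.2 hsurj)
  have hinj : Function.Injective Le := by
    intro f g hfg
    have : e ≫ (f : Y ⟶ W) = e ≫ (g : Y ⟶ W) := hfg
    exact (cancel_epi e).1 this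
  have h4 : IsNoetherian (End W) (Y ⟶ W) := isNoetherian_of_injective Le hinj
  infer_instance

theorem cores_SQ [Injective W] [IsNoetherianRing (End W)]
    (h2 : ∀ K : C, SQ W K → (∀ f : K ⟶ W, f = 0) → IsZero K) : Cores W (SQ W) := by
  intro Y hY
  obtain ⟨I, φ, hI, hφ⟩ := embed Y (finite_SQ hY) fun K i hi hf => h2 K (sq_sub i hY) hf
  let S : ShortComplex C := ShortComplex.mk φ (cokernel.π φ) (cokernel.condition φ)
  have hS : S.ShortExact :=
    { exact := ShortComplex.exact_of_g_is_cokernel _ (cokernelIsCokernel φ)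
      mono_f := hφ
      epi_g := inferInstanceAs (Epi (cokernel.π φ)) }
  exact ⟨S, hS, Iso.refl _, hI, sq_quot (cokernel.π φ) (sq_of_finW hI)⟩

/-- **Transfer theorem**, final form. -/
theorem transfer_main [HasExt.{w} C] (W : C) [Injective W]
    [HasExt.{w'} (ModuleCat.{v} (End W))] [IsNoetherianRing (End W)]
    (h2 : ∀ K : C, SQ W K → (∀ f : K ⟶ W, f = 0) → IsZero K) (X Y : C)
    (hfg : Module.Finite (End W) (Y ⟶ W))
    (hK : ∀ (K : C) (i : K ⟶ Y), Mono i → (∀ f : K ⟶ W, f = 0) → IsZero K) (i : ℕ) :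
    Subsingleton (Ext.{w} X Y i) ↔ Subsingleton (Ext.{w'} (EE W Y) (EE W X) i) := by
  obtain ⟨I, φ, hI, hφ⟩ := embed Y hfg hK
  exact transfer (cores_SQ h2) i Y (sq_sub φ (sq_of_finW hI)) X

end CA1492.Cat
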